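import Pool.Agent.H961.T3.All
import Pool.Agent.H961.T4.Stm5

/-!
Project PN: UBX3, the upper bound for all lengths, `d ≥ 3` (helper791)
-/

set_option autoImplicit false

namespace Pool.Agent.H791.PN

open Finset Equiv Matrix Q292.LC Pool.Agent.H961.T2 Pool.Agent.H961.T3 Pool.Agent.H961.T4
open Pool.Agent.Y998.ST (stirExp nnRate qq hop cycleLen gk)

/-- `∑ ℓ^(-3/2) ≤ 3` -/
theorem ubx3_sum (n : ℕ) (hn : 1 ≤ n) :
    ∑ ℓ ∈ Finset.Icc 1 n, (ℓ : ℝ) ^ (-(3 / 2) : ℝ) ≤ 3 - 2 / Real.sqrt n := by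
  induction n, hn using Nat.le_induction with
  | base =>
    rw [Finset.Icc_self, Finset.sum_singleton]
    norm_num
  | succ n hn ih =>
    rw [Finset.sum_Icc_succ_top (by omega)]
    have hn0 : (0 : ℝ) < n := by exact_mod_cast hn
    obtain ⟨a, ha⟩ : ∃ a : ℝ, a = Real.sqrt n := ⟨_, rfl⟩
    obtain ⟨b, hb⟩ : ∃ b : ℝ, b = Real.sqrt ((n + 1 : ℕ) : ℝ) := ⟨_, rfl⟩
    have ha0 : 0 < a := by rw [ha]; exact Real.sqrt_pos.2 hn0
    have hb0 : 0 < b := by rw [hb]; exact Real.sqrt_pos.2 (by positivity)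
    have ha2 : a ^ 2 = n := by rw [ha]; exact Real.sq_sqrt hn0.le
    have hb2 : b ^ 2 = (n : ℝ) + 1 := by
      rw [hb, Real.sq_sqrt (by positivity)]
      push_cast
      ring
    have hab : a ≤ b := by
      rw [ha, hb]
      apply Real.sqrt_le_sqrt
      push_cast
      linarith
    have hpow : (((n + 1 : ℕ) : ℝ)) ^ (-(3 / 2) : ℝ) = 1 / b ^ 3 := by
      have h0 : (0 : ℝ) ≤ ((n + 1 : ℕ) : ℝ) := by positivity
      rw [hb, Real.sqrt_eq_rpow, ← Real.rpow_natCast, ← Real.rpow_mul h0, Real.rpow_neg h0,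
        one_div]
      norm_num
    rw [hpow, ← hb]
    rw [← ha] at ih
    have hkey : (b - a) * (b + a) = 1 := by
      have : (b - a) * (b + a) = b ^ 2 - a ^ 2 := by ring
      rw [this, ha2, hb2]
      ring
    have h1 : 1 / b ^ 3 ≤ 2 / a - 2 / b := by
      rw [div_sub_div _ _ ha0.ne' hb0.ne', div_le_div_iff₀ (by positivity) (by positivity)]
      have h2 : (b - a) * b * (b + a) = b := by
        calc (b - a) * b * (b + a) = b * ((b - a) * (b + a)) := by ring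
          _ = b := by rw [hkey, mul_one]
      have h3 : 0 ≤ b - a := by linarith
      have h4 : 0 ≤ (b - a) * b * (b - a) := by positivity
      have h5 : a ≤ 2 * (b - a) * b ^ 2 := by nlinarith
      have h6 : a * b ≤ 2 * (b - a) * b ^ 2 * b := mul_le_mul_of_nonneg_right h5 hb0.le
      nlinarith
    linarith

theorem ubx3_num (d : ℕ) (hd : 3 ≤ d) (L : ℝ) (hL : 0 < L) (t : ℝ) (ht : 0 < t) (n : ℕ)
    (hn : 1 ≤ n) (s : ℝ)
    (h : |s - (n / L ^ d + (4 * Real.pi * t) ^ (-(d / 2 : ℝ)) *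
        ∑ ℓ ∈ Finset.Icc 1 n, (ℓ : ℝ) ^ (-(d / 2 : ℝ)))| ≤
      1 * (n / L ^ d + t ^ (-(d / 2 : ℝ)))) :
    s ≤ 4 * (Real.sqrt n * t ^ (-(d / 2 : ℝ)) + n / L ^ d) := by
  have hd' : (3 : ℝ) ≤ d := by exact_mod_cast hd
  have hn1 : (1 : ℝ) ≤ n := by exact_mod_cast hn
  have h1 : ∑ ℓ ∈ Finset.Icc 1 n, (ℓ : ℝ) ^ (-(d / 2 : ℝ)) ≤ 3 := by
    calc ∑ ℓ ∈ Finset.Icc 1 n, (ℓ : ℝ) ^ (-(d / 2 : ℝ)) ≤
        ∑ ℓ ∈ Finset.Icc 1 n, (ℓ : ℝ) ^ (-(3 / 2) : ℝ) := by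
          apply Finset.sum_le_sum
          intro ℓ hℓ
          have hℓ1 : (1 : ℝ) ≤ ℓ := by exact_mod_cast (Finset.mem_Icc.1 hℓ).1
          apply Real.rpow_le_rpow_of_exponent_le hℓ1
          linarith
      _ ≤ 3 - 2 / Real.sqrt n := ubx3_sum n hn
      _ ≤ 3 := by
          have : 0 ≤ 2 / Real.sqrt n := by positivity
          linarith
  have h0 : 0 ≤ ∑ ℓ ∈ Finset.Icc 1 n, (ℓ : ℝ) ^ (-(d / 2 : ℝ)) :=
    Finset.sum_nonneg fun ℓ _ => Real.rpow_nonneg (Nat.cast_nonneg _) _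
  have h2 : (4 * Real.pi * t) ^ (-(d / 2 : ℝ)) ≤ t ^ (-(d / 2 : ℝ)) := by
    apply Real.rpow_le_rpow_of_nonpos ht
    · have := Real.pi_gt_three
      nlinarith
    · linarith
  have h3 : (0 : ℝ) ≤ (4 * Real.pi * t) ^ (-(d / 2 : ℝ)) := by positivity
  have h4 : (0 : ℝ) ≤ t ^ (-(d / 2 : ℝ)) := by positivity
  have h5 : (4 * Real.pi * t) ^ (-(d / 2 : ℝ)) *
      ∑ ℓ ∈ Finset.Icc 1 n, (ℓ : ℝ) ^ (-(d / 2 : ℝ)) ≤ t ^ (-(d / 2 : ℝ)) * 3 :=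
    mul_le_mul h2 h1 h0 h4
  have h6 := (abs_le.1 h).2
  have h7 : (0 : ℝ) ≤ n / L ^ d := by positivity
  have h8 : 1 ≤ Real.sqrt n := Real.one_le_sqrt.2 hn1
  have h9 : t ^ (-(d / 2 : ℝ)) ≤ Real.sqrt n * t ^ (-(d / 2 : ℝ)) :=
    le_mul_of_one_le_left h4 h8
  linarith

/-- UBX for `d ≥ 3` from the one-point law. -/
theorem ubx3_of (hpt : ∀ d : ℕ, 3 ≤ d → ∃ m : ℕ, 1 ≤ m ∧ ∀ ε : ℝ, 0 < ε → ∃ T : ℝ, 3 ≤ T ∧
    ∀ (L : ℕ) [NeZero L] (t : ℝ) (n : ℕ), 3 ≤ L →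
    T ≤ t → (Real.log L) ^ m ≤ t → t * (Real.log L) ^ m ≤ (L : ℝ) ^ 2 → 1 ≤ n → n ≤ L ^ d →
    ((Real.log L) ^ m * n ≤ (L : ℝ) ^ d ∨ t ^ 4 ≤ (L : ℝ) ^ 7) → ∀ x : Fin d → ZMod L,
    |stirExp (nnRate d L) t (fun g => if ((cyc g x).card : ℝ) ≤ n then 1 else 0) -
      (n / (L : ℝ) ^ d + (4 * Real.pi * t) ^ (-(d / 2 : ℝ)) *
        ∑ ℓ ∈ Icc 1 n, (ℓ : ℝ) ^ (-(d / 2 : ℝ)))| ≤
      ε * (n / (L : ℝ) ^ d + t ^ (-(d / 2 : ℝ)))) : S_UBX3 := by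
  intro d hd
  obtain ⟨m, hm, hp⟩ := hpt d hd
  obtain ⟨T, hT, hp⟩ := hp 1 one_pos
  refine ⟨4, T, m, by norm_num, hT, ?_⟩
  intro L _ t n hL htT hlog htL hn hnL x
  have hL3 : (3 : ℝ) ≤ L := by exact_mod_cast hL
  have hL0 : (0 : ℝ) < L := by linarith
  have hlog1 : 1 ≤ Real.log L := by
    rw [Real.le_log_iff_exp_le hL0]
    linarith [Real.exp_one_lt_d9]
  have hnL' : n ≤ L ^ d := by
    have h1 : (1 : ℝ) ≤ (Real.log L) ^ m := one_le_pow₀ hlog1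
    have h2 : (0 : ℝ) ≤ n := Nat.cast_nonneg n
    have h3 : (n : ℝ) ≤ (L : ℝ) ^ d := by nlinarith
    exact_mod_cast h3
  have h := hp L t n hL htT hlog htL hn hnL' (Or.inl hnL) x
  have he : (fun g : Perm (Fin d → ZMod L) => if (cyc g x).card ≤ n then (1 : ℝ) else 0) =
      fun g => if ((cyc g x).card : ℝ) ≤ n then 1 else 0 := by
    funext g
    by_cases hg : (cyc g x).card ≤ n
    · rw [if_pos hg, if_pos (by exact_mod_cast hg)]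
    · rw [if_neg hg, if_neg (by exact_mod_cast hg)]
  rw [he]
  exact ubx3_num d hd L hL0 t (by linarith) n hn _ h

theorem ubx3 : S_UBX3 := ubx3_of (point_all all_ones Karh.t_KAR all_cyc all_gapo)

end Pool.Agent.H791.PN
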